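import Mathlib

set_option autoImplicit false
open MeasureTheory Set

namespace Pool.Agent.Helper61.GB

variable {d : ℕ}

/-- The frontier of a locally finite union is contained in the union of the frontiers. -/
lemma frontier_iUnion_subset {X ι : Type*} [TopologicalSpace X] {A : ι → Set X}
    (h : LocallyFinite A) : frontier (⋃ i, A i) ⊆ ⋃ i, frontier (A i) := by
  intro y hy
  rw [frontier, h.closure_iUnion] at hy
  obtain ⟨hc, hi⟩ := hy
  obtain ⟨i, hi1⟩ := mem_iUnion.1 hc
  refine mem_iUnion.2 ⟨i, hi1, fun h2 => hi ?_⟩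
  exact interior_mono (subset_iUnion A i) h2

/-- Translates of a set by the vectors of `4 ℤ^d`. -/
def tr (Z : Set (Fin d → ℝ)) (p : Fin d → ℤ) : Set (Fin d → ℝ) :=
  {y | (fun i => y i - 4 * (p i : ℝ)) ∈ Z}

/-- The periodic extension. -/
def per (Z : Set (Fin d → ℝ)) : Set (Fin d → ℝ) := ⋃ p, tr Z p

lemma mem_per {Z : Set (Fin d → ℝ)} {y : Fin d → ℝ} :
    y ∈ per Z ↔ ∃ p : Fin d → ℤ, (fun i => y i - 4 * (p i : ℝ)) ∈ Z := by
  simp [per, tr]

/-- translation homeomorphism -/
noncomputable def trH (p : Fin d → ℤ) : (Fin d → ℝ) ≃ₜ (Fin d → ℝ) :=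
  Homeomorph.addRight (fun i => -(4 * (p i : ℝ)))

lemma tr_eq (Z : Set (Fin d → ℝ)) (p : Fin d → ℤ) : tr Z p = trH p ⁻¹' Z := by
  ext y
  have : trH p y = fun i => y i - 4 * (p i : ℝ) := by
    funext i
    simp [trH, sub_eq_add_neg]
  simp [tr, this]

lemma frontier_tr (Z : Set (Fin d → ℝ)) (p : Fin d → ℤ) :
    frontier (tr Z p) = trH p ⁻¹' frontier Z := by
  rw [tr_eq, Homeomorph.preimage_frontier]

lemma volume_frontier_tr {Z : Set (Fin d → ℝ)} (hZ : volume (frontier Z) = 0) (p : Fin d → ℤ) :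
    volume (frontier (tr Z p)) = 0 := by
  rw [frontier_tr]
  have h : MeasurePreserving (trH p : (Fin d → ℝ) → (Fin d → ℝ)) volume volume :=
    measurePreserving_add_right volume _
  rw [h.measure_preimage (isClosed_frontier.measurableSet.nullMeasurableSet), hZ]

lemma locallyFinite_tr {Z : Set (Fin d → ℝ)} (hb : Bornology.IsBounded Z) :
    LocallyFinite (tr Z) := by
  intro y
  refine ⟨Metric.ball y 1, Metric.ball_mem_nhds y one_pos, ?_⟩
  obtain ⟨R, hR⟩ := hb.subset_closedBall 0
  -- all `p` in question lie in a bounded box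
  have hsub : {p : Fin d → ℤ | (tr Z p ∩ Metric.ball y 1).Nonempty} ⊆
      {p : Fin d → ℤ | ∀ i, p i ∈ Finset.Icc ⌊(y i - 1 - |R|) / 4⌋ ⌈(y i + 1 + |R|) / 4⌉} := by
    rintro p ⟨w, hw1, hw2⟩ i
    have h1 : |w i - 4 * (p i : ℝ)| ≤ |R| := by
      have h3 := hR hw1
      rw [mem_closedBall_zero_iff] at h3
      have h4 := norm_le_pi_norm (fun i => w i - 4 * (p i : ℝ)) i
      rw [Real.norm_eq_abs] at h4
      exact (h4.trans h3).trans (le_abs_self R)
    have h2 : |w i - y i| ≤ 1 := by
      rw [Metric.mem_ball, dist_eq_norm] at hw2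
      have h4 := norm_le_pi_norm (w - y) i
      rw [Real.norm_eq_abs, Pi.sub_apply] at h4
      linarith
    rw [abs_le] at h1 h2
    rw [Finset.mem_Icc]
    constructor
    · have h5 : (y i - 1 - |R|) / 4 ≤ (p i : ℝ) := by linarith [h1.2, h2.1]
      exact_mod_cast (Int.floor_le _).trans h5
    · have h5 : (p i : ℝ) ≤ (y i + 1 + |R|) / 4 := by linarith [h1.1, h2.2]
      exact_mod_cast h5.trans (Int.le_ceil _)
  refine Set.Finite.subset ?_ hsub
  exact Set.Finite.pi' (fun i => Finset.finite_toSet (Finset.Icc ⌊(y i - 1 - |R|) / 4⌋ ⌈(y i + 1 + |R|) / 4⌉))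

/-- The periodic extension of a bounded Jordan set has null frontier. -/
lemma jordan_per {Z : Set (Fin d → ℝ)} (hb : Bornology.IsBounded Z)
    (hZ : volume (frontier Z) = 0) : volume (frontier (per Z)) = 0 := by
  refine measure_mono_null (frontier_iUnion_subset (locallyFinite_tr hb)) ?_
  exact measure_iUnion_null (fun p => volume_frontier_tr hZ p)

/-- Periodic extension of a bounded Jordan set: locally finite, so measurable etc.; the version with
a subtraction of finitely many periodic sets. -/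
lemma jordan_diff_per {ι : Type*} (s : Set ι) (hs : s.Finite) {A : Set (Fin d → ℝ)}
    (hA : volume (frontier A) = 0) (Z : ι → Set (Fin d → ℝ))
    (hb : ∀ i ∈ s, Bornology.IsBounded (Z i)) (hZ : ∀ i ∈ s, volume (frontier (Z i)) = 0) :
    volume (frontier (A \ ⋃ i ∈ s, per (Z i))) = 0 := by
  have h1 : volume (frontier (⋃ i ∈ s, per (Z i))) = 0 := by
    have h2 : (⋃ i ∈ s, per (Z i)) = ⋃ i : s, per (Z i) := by
      rw [biUnion_eq_iUnion]
    rw [h2]
    have : Finite s := hs
    refine measure_mono_null (frontier_iUnion_subset (locallyFinite_of_finite _)) ?_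
    exact measure_iUnion_null (fun i => jordan_per (hb i i.2) (hZ i i.2))
  rw [sdiff_eq]
  refine measure_mono_null (frontier_inter_subset A _) (measure_union_null ?_ ?_)
  · exact measure_mono_null inter_subset_left hA
  · refine measure_mono_null inter_subset_right ?_
    rwa [frontier_compl]

end Pool.Agent.Helper61.GB
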